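import Mathlib

/-! Johnson graphs, addressings, and the distance in Johnson graphs. -/

namespace H87.JA

/-- the vertices of the Johnson graph -/
abbrev JV (n m : ℕ) : Type := {A : Finset (Fin n) // A.card = m}

/-- The Johnson graph `J(n, m)`: the `m`-subsets of an `n`-set, adjacent when they meet in
`m - 1` elements. -/
def johnson (n m : ℕ) : SimpleGraph (JV n m) where
  Adj A B := A ≠ B ∧ (A.1 ∩ B.1).card + 1 = m
  symm := ⟨fun A B h => ⟨h.1.symm, by rw [Finset.inter_comm]; exact h.2⟩⟩
  loopless := ⟨fun A h => h.1 rfl⟩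

/-- the number of coordinates in which one word has `0` and the other one `1`
(`none` is the symbol `*`) -/
def sep {ι : Type*} [Fintype ι] (a b : ι → Option Bool) : ℕ :=
  (Finset.univ.filter fun i => a i ≠ none ∧ b i ≠ none ∧ a i ≠ b i).card

/-- `G` has an addressing of length `t`. -/
def HasAddressing {V : Type*} (G : SimpleGraph V) (t : ℕ) : Prop :=
  ∃ f : V → (Fin t → Option Bool), ∀ u v, sep (f u) (f v) = G.dist u v

/-- The addressing number `N(G)`. -/
noncomputable def addressingNumber {V : Type*} (G : SimpleGraph V) : ℕ :=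
  sInf {t | HasAddressing G t}

variable {n m : ℕ}

theorem card_sdiff_eq (A B : JV n m) : (A.1 \ B.1).card = m - (A.1 ∩ B.1).card := by
  have h := Finset.card_sdiff_add_card_inter A.1 B.1
  have hA := A.2
  omega

theorem walk_le (A B : JV n m) (p : (johnson n m).Walk A B) : (A.1 \ B.1).card ≤ p.length := by
  induction p with
  | nil => simp
  | @cons A C B h p ih =>
    rw [SimpleGraph.Walk.length_cons]
    have h1 : (A.1 \ B.1) ⊆ (C.1 \ B.1) ∪ (A.1 \ C.1) := by
      intro x hx
      rw [Finset.mem_sdiff] at hx
      rw [Finset.mem_union, Finset.mem_sdiff, Finset.mem_sdiff]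
      by_cases hC : x ∈ C.1
      · exact Or.inl ⟨hC, hx.2⟩
      · exact Or.inr ⟨hx.1, hC⟩
    have h2 := Finset.card_le_card h1
    have h3 := Finset.card_union_le (C.1 \ B.1) (A.1 \ C.1)
    have h4 := card_sdiff_eq A C
    have h5 := h.2
    omega

theorem exists_walk (k : ℕ) : ∀ A B : JV n m, (A.1 \ B.1).card = k →
    ∃ p : (johnson n m).Walk A B, p.length = k := by
  induction k with
  | zero =>
    intro A B h
    have h1 : A.1 ⊆ B.1 := by
      rw [Finset.card_eq_zero] at h
      exact Finset.sdiff_eq_empty_iff_subset.mp h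
    have h2 : A = B := by
      apply Subtype.ext
      apply Finset.eq_of_subset_of_card_le h1
      rw [A.2, B.2]
    subst h2
    exact ⟨SimpleGraph.Walk.nil, rfl⟩
  | succ k ih =>
    intro A B h
    have hAB : (A.1 \ B.1).Nonempty := by
      rw [← Finset.card_pos]
      omega
    have hBA : (B.1 \ A.1).Nonempty := by
      rw [← Finset.card_pos]
      have h1 := card_sdiff_eq B A
      have h2 := card_sdiff_eq A B
      rw [Finset.inter_comm] at h1
      omega
    obtain ⟨a, ha⟩ := hAB
    obtain ⟨b, hb⟩ := hBA
    rw [Finset.mem_sdiff] at ha hb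
    have hbA : b ∉ A.1.erase a := fun hh => hb.2 (Finset.mem_of_mem_erase hh)
    have hcard : (insert b (A.1.erase a)).card = m := by
      rw [Finset.card_insert_of_notMem hbA, Finset.card_erase_of_mem ha.1]
      have := Finset.card_pos.mpr ⟨a, ha.1⟩
      have hA := A.2
      omega
    let C : JV n m := ⟨insert b (A.1.erase a), hcard⟩
    have hCB : (C.1 \ B.1).card = k := by
      have e : C.1 \ B.1 = (A.1 \ B.1).erase a := by
        ext x
        simp only [C, Finset.mem_sdiff, Finset.mem_insert, Finset.mem_erase]
        constructor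
        · rintro ⟨h1, h2⟩
          rcases h1 with h1 | h1
          · subst h1
            exact absurd hb.1 h2
          · exact ⟨h1.1, h1.2, h2⟩
        · rintro ⟨h1, h2, h3⟩
          exact ⟨Or.inr ⟨h1, h2⟩, h3⟩
      rw [e, Finset.card_erase_of_mem (Finset.mem_sdiff.mpr ha), h]
      rfl
    have hadj : (johnson n m).Adj A C := by
      constructor
      · intro hh
        apply hb.2
        rw [hh]
        exact Finset.mem_insert_self _ _
      · have e : A.1 ∩ C.1 = A.1.erase a := by
          ext x
          simp only [C, Finset.mem_inter, Finset.mem_insert, Finset.mem_erase]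
          constructor
          · rintro ⟨h1, h2⟩
            rcases h2 with h2 | h2
            · subst h2
              exact absurd h1 hb.2
            · exact h2
          · rintro ⟨h1, h2⟩
            exact ⟨h2, Or.inr ⟨h1, h2⟩⟩
        rw [e, Finset.card_erase_of_mem ha.1]
        have := Finset.card_pos.mpr ⟨a, ha.1⟩
        have hA := A.2
        omega
    obtain ⟨p, hp⟩ := ih C B hCB
    refine ⟨SimpleGraph.Walk.cons hadj p, ?_⟩
    rw [SimpleGraph.Walk.length_cons, hp]

theorem johnson_dist (A B : JV n m) : (johnson n m).dist A B = (A.1 \ B.1).card := by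
  obtain ⟨p, hp⟩ := exists_walk _ A B rfl
  apply le_antisymm
  · rw [← hp]
    exact SimpleGraph.dist_le p
  · obtain ⟨q, hq⟩ := p.reachable.exists_walk_length_eq_dist
    rw [← hq]
    exact walk_le A B q

/-- an addressing indexed by any type, on a set of coordinates outside of which nothing is
separated -/
theorem addressing_of {V ι : Type*} [Fintype ι] [DecidableEq ι] (G : SimpleGraph V) (t : ℕ)
    (f : V → (ι → Option Bool)) (C : Finset ι) (hC : C.card = t)
    (h0 : ∀ u v, ∀ i, i ∉ C → ¬ (f u i ≠ none ∧ f v i ≠ none ∧ f u i ≠ f v i))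
    (h : ∀ u v, sep (f u) (f v) = G.dist u v) : HasAddressing G t := by
  classical
  have e : Fin t ≃ C := (Fintype.equivFinOfCardEq (by simp [hC])).symm
  refine ⟨fun u k => f u (e k).1, ?_⟩
  intro u v
  rw [← h u v]
  unfold sep
  have e2 : (Finset.univ.filter fun i => f u i ≠ none ∧ f v i ≠ none ∧ f u i ≠ f v i) =
      (Finset.univ.filter fun k : Fin t => f u (e k).1 ≠ none ∧ f v (e k).1 ≠ none ∧
        f u (e k).1 ≠ f v (e k).1).map
        (⟨fun k => (e k).1, fun a b hab => e.injective (Subtype.ext hab)⟩ : Fin t ↪ ι) := by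
    ext i
    simp only [Finset.mem_filter, Finset.mem_univ, true_and, Finset.mem_map]
    constructor
    · intro hi
      by_cases hiC : i ∈ C
      · refine ⟨e.symm ⟨i, hiC⟩, ?_, ?_⟩
        · rw [Equiv.apply_symm_apply]
          exact hi
        · change ((e (e.symm ⟨i, hiC⟩)).1 : ι) = i
          rw [Equiv.apply_symm_apply]
      · exact absurd hi (h0 u v i hiC)
    · rintro ⟨k, hk, rfl⟩
      exact hk
  rw [e2, Finset.card_map]

end H87.JA
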