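import Pool.Agent.H87.JA.Upper

/-! The lower bound `n ≤ N(J(n, m))`, `2 ≤ m ≤ n - 2`. -/

namespace H87.JA

open Finset

variable {n m : ℕ}

/-- the functional `y ↦ ∑ c A * y A` -/
def lin {V : Type} [Fintype V] (c : V → ℝ) : (V → ℝ) →ₗ[ℝ] ℝ where
  toFun y := ∑ A, c A * y A
  map_add' y z := by
    rw [← Finset.sum_add_distrib]
    apply Finset.sum_congr rfl
    intro A _
    rw [Pi.add_apply]
    ring
  map_smul' r y := by
    rw [RingHom.id_apply, smul_eq_mul, Finset.mul_sum]
    apply Finset.sum_congr rfl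
    intro A _
    rw [Pi.smul_apply, smul_eq_mul]
    ring

theorem lin_apply {V : Type} [Fintype V] (c y : V → ℝ) : lin c y = ∑ A, c A * y A := rfl

/-- the indicator of `i ∈ A` -/
def xi (i : Fin n) : JV n m → ℝ := fun A => if i ∈ A.1 then 1 else 0

/-- the indicator of `f A k = some s` -/
def ind {t : ℕ} (f : JV n m → (Fin t → Option Bool)) (s : Bool) (k : Fin t) : JV n m → ℝ :=
  fun A => if f A k = some s then 1 else 0

theorem sep_sum {t : ℕ} (f : JV n m → (Fin t → Option Bool)) (s : Bool) (A B : JV n m) :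
    (sep (f A) (f B) : ℝ) = ∑ k, (ind f s k A * ind f (!s) k B + ind f (!s) k A * ind f s k B) := by
  unfold sep ind
  rw [Finset.card_filter]
  push_cast
  apply Finset.sum_congr rfl
  intro k _
  rcases f A k with _ | a <;> rcases f B k with _ | b
  · simp
  · simp
  · simp
  · cases a <;> cases b <;> cases s <;> simp

theorem inter_sum (A B : JV n m) :
    ((A.1 ∩ B.1).card : ℝ) = ∑ i : Fin n, xi i A * xi i B := by
  have h : A.1 ∩ B.1 = Finset.univ.filter (fun i => i ∈ A.1 ∧ i ∈ B.1) := by
    ext i
    simp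
  rw [h, Finset.card_filter]
  push_cast
  apply Finset.sum_congr rfl
  intro i _
  unfold xi
  by_cases h1 : i ∈ A.1 <;> by_cases h2 : i ∈ B.1 <;> simp [h1, h2]

theorem quad {V : Type} [Fintype V] (c d y : V → ℝ) :
    ∑ A, ∑ B, (c A * d B) * (y A * y B) = lin c y * lin d y := by
  rw [lin_apply, lin_apply, Finset.sum_mul_sum]
  apply Finset.sum_congr rfl
  intro A _
  apply Finset.sum_congr rfl
  intro B _
  ring

/-- the quadratic form -/
theorem form {t : ℕ} (f : JV n m → (Fin t → Option Bool))
    (hf : ∀ A B, sep (f A) (f B) = (A.1 \ B.1).card) (s : Bool) (y : JV n m → ℝ) :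
    2 * ∑ k, lin (ind f s k) y * lin (ind f (!s) k) y =
      m * (lin (fun _ => 1) y) ^ 2 - ∑ i, (lin (xi i) y) ^ 2 := by
  have h1 : ∑ A, ∑ B, (sep (f A) (f B) : ℝ) * (y A * y B) =
      2 * ∑ k, lin (ind f s k) y * lin (ind f (!s) k) y := by
    have e : ∀ A B, (sep (f A) (f B) : ℝ) * (y A * y B) =
        ∑ k, ((ind f s k A * ind f (!s) k B) * (y A * y B) +
          (ind f (!s) k A * ind f s k B) * (y A * y B)) := by
      intro A B
      rw [sep_sum f s, Finset.sum_mul]
      apply Finset.sum_congr rfl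
      intro k _
      ring
    have e2 : ∑ A, ∑ B, (sep (f A) (f B) : ℝ) * (y A * y B) =
        ∑ k, (∑ A, ∑ B, (ind f s k A * ind f (!s) k B) * (y A * y B) +
          ∑ A, ∑ B, (ind f (!s) k A * ind f s k B) * (y A * y B)) := by
      rw [Finset.sum_congr rfl (fun A _ => Finset.sum_congr rfl (fun B _ => e A B))]
      rw [Finset.sum_congr rfl (fun A _ => Finset.sum_comm)]
      rw [Finset.sum_comm]
      apply Finset.sum_congr rfl
      intro k _
      rw [← Finset.sum_add_distrib]
      apply Finset.sum_congr rfl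
      intro A _
      rw [← Finset.sum_add_distrib]
    rw [e2, Finset.mul_sum]
    apply Finset.sum_congr rfl
    intro k _
    rw [quad, quad]
    ring
  have h2 : ∑ A, ∑ B, (sep (f A) (f B) : ℝ) * (y A * y B) =
      m * (lin (fun _ => 1) y) ^ 2 - ∑ i, (lin (xi i) y) ^ 2 := by
    have e : ∀ A B, (sep (f A) (f B) : ℝ) * (y A * y B) =
        m * (((1 : ℝ) * 1) * (y A * y B)) - ∑ i, (xi i A * xi i B) * (y A * y B) := by
      intro A B
      have h3 : (sep (f A) (f B) : ℝ) = m - ((A.1 ∩ B.1).card : ℝ) := by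
        rw [hf A B]
        have h4 := Finset.card_sdiff_add_card_inter A.1 B.1
        rw [A.2] at h4
        have h5 : ((A.1 \ B.1).card : ℝ) + ((A.1 ∩ B.1).card : ℝ) = m := by exact_mod_cast h4
        linarith
      rw [h3, inter_sum, sub_mul, Finset.sum_mul]
      ring
    rw [Finset.sum_congr rfl (fun A _ => Finset.sum_congr rfl (fun B _ => e A B))]
    have e3 : ∑ A, ∑ B, (((1 : ℝ) * 1) * (y A * y B)) =
        (lin (fun _ : JV n m => (1 : ℝ)) y) ^ 2 := by
      rw [quad (fun _ => 1) (fun _ => 1) y]
      ring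
    simp only [Finset.sum_sub_distrib, ← Finset.mul_sum] at e3 ⊢
    congr 1
    · rw [← e3]
    · rw [Finset.sum_congr rfl (fun A _ => Finset.sum_comm), Finset.sum_comm]
      apply Finset.sum_congr rfl
      intro i _
      rw [quad]
      ring
  rw [← h1, h2]

/-- existence of `m`-sets with prescribed elements -/
theorem exists_set (P Q : Finset (Fin n)) (hPQ : Disjoint P Q) (h1 : P.card ≤ m)
    (h2 : m + Q.card ≤ n) : ∃ A : JV n m, P ⊆ A.1 ∧ Disjoint A.1 Q := by
  have h3 : P ⊆ Qᶜ := by
    intro x hx
    rw [Finset.mem_compl]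
    exact Finset.disjoint_left.mp hPQ hx
  have h4 : m ≤ (Qᶜ).card := by
    rw [Finset.card_compl, Fintype.card_fin]
    omega
  obtain ⟨A, hA1, hA2, hA3⟩ := Finset.exists_subsuperset_card_eq h3 h1 h4
  refine ⟨⟨A, hA3⟩, hA1, ?_⟩
  rw [Finset.disjoint_left]
  intro x hx hxQ
  exact (Finset.mem_compl.mp (hA2 hx)) hxQ

/-- adding an element -/
theorem exists_pair (i j : Fin n) (hij : i ≠ j) (hm : 1 ≤ m) (hn : m + 1 ≤ n) :
    ∃ (C : Finset (Fin n)) (A B : JV n m), i ∉ C ∧ j ∉ C ∧ A.1 = insert i C ∧
      B.1 = insert j C := by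
  obtain ⟨A, hA1, hA2⟩ := exists_set (n := n) (m := m) {i} {j} (by simp [hij])
    (by simpa using hm) (by simpa using hn)
  have hi : i ∈ A.1 := hA1 (Finset.mem_singleton_self i)
  have hj : j ∉ A.1 := by
    intro h
    exact Finset.disjoint_left.mp hA2 h (Finset.mem_singleton_self j)
  have hj2 : j ∉ A.1.erase i := fun h => hj (Finset.mem_of_mem_erase h)
  refine ⟨A.1.erase i, A, ⟨insert j (A.1.erase i), ?_⟩, Finset.notMem_erase i _, hj2,
    (Finset.insert_erase hi).symm, rfl⟩
  rw [Finset.card_insert_of_notMem hj2, Finset.card_erase_of_mem hi, A.2]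
  omega

/-- the map `y ↦ (∑_{A ∋ i} y A)_i` -/
def psi (n m : ℕ) : (JV n m → ℝ) →ₗ[ℝ] (Fin n → ℝ) := LinearMap.pi fun i => lin (xi i)

theorem psi_single (A : JV n m) : psi n m (Pi.single A 1) = fun i => if i ∈ A.1 then 1 else 0 := by
  classical
  funext i
  change lin (xi i) (Pi.single A 1) = _
  rw [lin_apply, Finset.sum_eq_single A]
  · rw [Pi.single_eq_same, mul_one]
    rfl
  · intro B _ hB
    rw [Pi.single_eq_of_ne hB, mul_zero]
  · intro h
    exact absurd (Finset.mem_univ A) h

theorem psi_surj (hm : 1 ≤ m) (hn : m + 1 ≤ n) : LinearMap.range (psi n m) = ⊤ := by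
  classical
  have hdiff : ∀ i j : Fin n, i ≠ j →
      (Pi.single i 1 - Pi.single j 1 : Fin n → ℝ) ∈ LinearMap.range (psi n m) := by
    intro i j hij
    obtain ⟨C, A, B, hi, hj, hA, hB⟩ := exists_pair i j hij hm hn
    refine ⟨Pi.single A 1 - Pi.single B 1, ?_⟩
    rw [map_sub, psi_single, psi_single]
    funext l
    rw [Pi.sub_apply, Pi.sub_apply, hA, hB]
    by_cases h1 : l = i
    · subst h1
      rw [if_pos (Finset.mem_insert_self _ _), if_neg (by
        rw [Finset.mem_insert, not_or]
        exact ⟨hij, hi⟩), Pi.single_eq_same, Pi.single_eq_of_ne hij]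
    · by_cases h2 : l = j
      · subst h2
        rw [if_neg (by
          rw [Finset.mem_insert, not_or]
          exact ⟨h1, hj⟩), if_pos (Finset.mem_insert_self _ _), Pi.single_eq_of_ne h1,
          Pi.single_eq_same]
      · rw [Pi.single_eq_of_ne h1, Pi.single_eq_of_ne h2]
        by_cases h3 : l ∈ C
        · rw [if_pos (Finset.mem_insert_of_mem h3), if_pos (Finset.mem_insert_of_mem h3)]
          ring
        · rw [if_neg (by rw [Finset.mem_insert, not_or]; exact ⟨h1, h3⟩),
            if_neg (by rw [Finset.mem_insert, not_or]; exact ⟨h2, h3⟩)]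
  have hsingle : ∀ i : Fin n, (Pi.single i 1 : Fin n → ℝ) ∈ LinearMap.range (psi n m) := by
    intro i
    obtain ⟨A, hA, -⟩ := exists_set (n := n) (m := m) {i} ∅ (by simp) (by simpa using hm)
      (by simp; omega)
    have h1 : ∑ j ∈ A.1, (Pi.single i 1 - Pi.single j 1 : Fin n → ℝ) ∈
        LinearMap.range (psi n m) := by
      apply Submodule.sum_mem
      intro j _
      by_cases hij : i = j
      · subst hij
        rw [sub_self]
        exact Submodule.zero_mem _
      · exact hdiff i j hij
    have h2 : psi n m (Pi.single A 1) ∈ LinearMap.range (psi n m) := ⟨_, rfl⟩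
    have h3 := Submodule.smul_mem _ ((m : ℝ)⁻¹) (Submodule.add_mem _ h1 h2)
    have e : (m : ℝ)⁻¹ • (∑ j ∈ A.1, (Pi.single i 1 - Pi.single j 1 : Fin n → ℝ) +
        psi n m (Pi.single A 1)) = Pi.single i 1 := by
      have hm0 : (m : ℝ) ≠ 0 := by exact_mod_cast (by omega : m ≠ 0)
      rw [Finset.sum_sub_distrib, Finset.sum_const, A.2, psi_single]
      funext l
      rw [Pi.smul_apply, Pi.add_apply, Pi.sub_apply, Finset.sum_apply, Pi.smul_apply]
      have e1 : ∑ c ∈ A.1, (Pi.single c 1 : Fin n → ℝ) l = if l ∈ A.1 then 1 else 0 := by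
        have e2 : ∀ c ∈ A.1, (Pi.single c 1 : Fin n → ℝ) l = if l = c then 1 else 0 := by
          intro c _
          rw [Pi.single_apply]
        rw [Finset.sum_congr rfl e2, Finset.sum_ite_eq]
      rw [e1, sub_add_cancel, nsmul_eq_mul, smul_eq_mul, ← mul_assoc, inv_mul_cancel₀ hm0,
        one_mul]
    rw [e] at h3
    exact h3
  rw [eq_top_iff]
  intro v _
  have e : v = ∑ i, v i • (Pi.single i 1 : Fin n → ℝ) := by
    funext l
    rw [Finset.sum_apply, Finset.sum_eq_single l]
    · rw [Pi.smul_apply, Pi.single_eq_same, smul_eq_mul, mul_one]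
    · intro b _ hb
      rw [Pi.smul_apply, Pi.single_eq_of_ne (Ne.symm hb), smul_zero]
    · intro h
      exact absurd (Finset.mem_univ l) h
  rw [e]
  exact Submodule.sum_mem _ fun i _ => Submodule.smul_mem _ _ (hsingle i)

/-- the map `y ↦ (∑_A a_k(A) y A)_k, ∑_A y A` -/
def phi {t : ℕ} (f : JV n m → (Fin t → Option Bool)) (s : Bool) :
    (JV n m → ℝ) →ₗ[ℝ] ((Fin t → ℝ) × ℝ) :=
  (LinearMap.pi fun k => lin (ind f s k)).prod (lin fun _ => 1)

theorem ker_le {t : ℕ} (f : JV n m → (Fin t → Option Bool))
    (hf : ∀ A B, sep (f A) (f B) = (A.1 \ B.1).card) (s : Bool) :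
    LinearMap.ker (phi f s) ≤ LinearMap.ker (psi n m) := by
  intro y hy
  rw [LinearMap.mem_ker] at hy ⊢
  have h1 : ∀ k, lin (ind f s k) y = 0 := fun k => congrFun (congrArg Prod.fst hy) k
  have h2 : lin (fun _ : JV n m => (1 : ℝ)) y = 0 := congrArg Prod.snd hy
  have h3 := form f hf s y
  have h4 : ∑ k, lin (ind f s k) y * lin (ind f (!s) k) y = 0 := by
    apply Finset.sum_eq_zero
    intro k _
    rw [h1, zero_mul]
  rw [h4, h2] at h3
  have h5 : ∑ i, (lin (xi i) y) ^ 2 = 0 := by linarith
  rw [Finset.sum_eq_zero_iff_of_nonneg (fun i _ => sq_nonneg _)] at h5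
  funext i
  exact pow_eq_zero_iff (two_ne_zero) |>.mp (h5 i (Finset.mem_univ i))

theorem dims {t : ℕ} (f : JV n m → (Fin t → Option Bool))
    (hf : ∀ A B, sep (f A) (f B) = (A.1 \ B.1).card) (hm : 1 ≤ m) (hn : m + 1 ≤ n)
    (ht : t < n) (s : Bool) : LinearMap.ker (phi f s) = LinearMap.ker (psi n m) := by
  have h1 := LinearMap.finrank_range_add_finrank_ker (phi f s)
  have h2 := LinearMap.finrank_range_add_finrank_ker (psi n m)
  have h3 : Module.finrank ℝ (LinearMap.range (psi n m)) = n := by
    rw [psi_surj hm hn, finrank_top, Module.finrank_fintype_fun_eq_card, Fintype.card_fin]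
  have h4 : Module.finrank ℝ (LinearMap.range (phi f s)) ≤ t + 1 := by
    have h5 := Submodule.finrank_le (LinearMap.range (phi f s))
    rw [Module.finrank_prod, Module.finrank_fintype_fun_eq_card, Fintype.card_fin,
      Module.finrank_self] at h5
    exact h5
  apply Submodule.eq_of_le_of_finrank_le (ker_le f hf s)
  omega

/-- the indicators are functions of degree one -/
theorem degree_one {t : ℕ} (f : JV n m → (Fin t → Option Bool))
    (hf : ∀ A B, sep (f A) (f B) = (A.1 \ B.1).card) (hm : 1 ≤ m) (hn : m + 1 ≤ n)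
    (ht : t < n) (s : Bool) (k : Fin t) :
    ∃ c : Fin n → ℝ, ∀ A, ind f s k A = ∑ i ∈ A.1, c i := by
  classical
  have h1 : ⨅ i, LinearMap.ker (lin (xi (m := m) i)) ≤ LinearMap.ker (lin (ind f s k)) := by
    intro y hy
    have h2 : y ∈ LinearMap.ker (psi n m) := by
      rw [LinearMap.mem_ker]
      funext i
      exact (Submodule.mem_iInf _).mp hy i
    rw [← dims f hf hm hn ht s, LinearMap.mem_ker] at h2
    exact congrFun (congrArg Prod.fst h2) k
  have h2 := mem_span_of_iInf_ker_le_ker h1
  rw [Submodule.mem_span_range_iff_exists_fun] at h2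
  obtain ⟨c, hc⟩ := h2
  refine ⟨c, ?_⟩
  intro A
  have h3 := congrArg (fun L => L (Pi.single A 1)) hc
  rw [LinearMap.sum_apply] at h3
  have h4 : lin (ind f s k) (Pi.single A 1) = ind f s k A := by
    rw [lin_apply, Finset.sum_eq_single A]
    · rw [Pi.single_eq_same, mul_one]
    · intro B _ hB
      rw [Pi.single_eq_of_ne hB, mul_zero]
    · intro h
      exact absurd (Finset.mem_univ A) h
  rw [← h4, ← h3]
  have h5 : ∀ i, (c i • lin (xi (m := m) i)) (Pi.single A 1) = if i ∈ A.1 then c i else 0 := by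
    intro i
    have h6 := congrFun (psi_single A) i
    change lin (xi i) (Pi.single A 1) = _ at h6
    rw [LinearMap.smul_apply, h6, smul_eq_mul]
    split_ifs
    · ring
    · ring
  rw [Finset.sum_congr rfl (fun i _ => h5 i), Finset.sum_ite_mem, Finset.univ_inter]

/-- a function of degree one with values `0` and `1` which is not constant is a dictator -/
theorem dictator (hm : 2 ≤ m) (hn : m + 2 ≤ n) (g : JV n m → ℝ) (h01 : ∀ A, g A = 0 ∨ g A = 1)
    (c : Fin n → ℝ) (hg : ∀ A, g A = ∑ i ∈ A.1, c i) (hne : ∃ i j, c i ≠ c j) :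
    ∃ l, (∀ A, g A = if l ∈ A.1 then 1 else 0) ∨ (∀ A, g A = if l ∈ A.1 then 0 else 1) := by
  classical
  have hstep : ∀ i j, i ≠ j → c i - c j = -1 ∨ c i - c j = 0 ∨ c i - c j = 1 := by
    intro i j hij
    obtain ⟨C, A, B, hi, hj, hA, hB⟩ := exists_pair (m := m) i j hij (by omega) (by omega)
    have h1 : g A = c i + ∑ l ∈ C, c l := by rw [hg, hA, Finset.sum_insert hi]
    have h2 : g B = c j + ∑ l ∈ C, c l := by rw [hg, hB, Finset.sum_insert hj]
    have e : c i - c j = g A - g B := by rw [h1, h2]; ring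
    rw [e]
    rcases h01 A with h3 | h3 <;> rcases h01 B with h4 | h4 <;> rw [h3, h4]
    · right; left; ring
    · left; ring
    · right; right; ring
    · right; left; ring
  obtain ⟨i, j, hij, hc⟩ : ∃ i j, i ≠ j ∧ c i - c j = 1 := by
    obtain ⟨i, j, hcij⟩ := hne
    have hij : i ≠ j := by
      rintro rfl
      exact hcij rfl
    rcases hstep i j hij with h | h | h
    · exact ⟨j, i, hij.symm, by linarith⟩
    · exact absurd (by linarith) hcij
    · exact ⟨i, j, hij, h⟩
  have htwo : ∀ l, c l = c i ∨ c l = c j := by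
    intro l
    by_cases hli : l = i
    · subst hli
      exact Or.inl rfl
    · by_cases hlj : l = j
      · subst hlj
        exact Or.inr rfl
      · rcases hstep l i hli with h | h | h
        · right; linarith
        · left; linarith
        · exfalso
          rcases hstep l j hlj with h' | h' | h' <;> linarith
  by_cases hhigh : ∀ k, k ≠ i → c k = c j
  · refine ⟨i, Or.inl ?_⟩
    have hval : ∀ A : JV n m, g A = m * c j + if i ∈ A.1 then 1 else 0 := by
      intro A
      rw [hg]
      have e : ∀ l ∈ A.1, c l = c j + if l = i then 1 else 0 := by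
        intro l _
        by_cases hl : l = i
        · rw [hl, if_pos rfl]
          linarith
        · rw [if_neg hl, hhigh l hl, add_zero]
      rw [Finset.sum_congr rfl e, Finset.sum_add_distrib, Finset.sum_const, A.2,
        Finset.sum_ite_eq', nsmul_eq_mul]
    obtain ⟨A, hA, -⟩ := exists_set (n := n) (m := m) {i} ∅ (by simp) (by simp; omega)
      (by simp; omega)
    obtain ⟨B, -, hB⟩ := exists_set (n := n) (m := m) ∅ {i} (by simp) (by simp) (by simp; omega)
    have hiA : i ∈ A.1 := hA (Finset.mem_singleton_self i)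
    have hiB : i ∉ B.1 := fun h => Finset.disjoint_left.mp hB h (Finset.mem_singleton_self i)
    have h1 := hval A
    have h2 := hval B
    rw [if_pos hiA] at h1
    rw [if_neg hiB] at h2
    have h0 : (m : ℝ) * c j = 0 := by
      rcases h01 A with h3 | h3 <;> rcases h01 B with h4 | h4 <;> linarith
    intro C
    rw [hval C, h0, zero_add]
  · by_cases hlow : ∀ k, k ≠ j → c k = c i
    · refine ⟨j, Or.inr ?_⟩
      have hval : ∀ A : JV n m, g A = m * c i - if j ∈ A.1 then 1 else 0 := by
        intro A
        rw [hg]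
        have e : ∀ l ∈ A.1, c l = c i - if l = j then 1 else 0 := by
          intro l _
          by_cases hl : l = j
          · rw [hl, if_pos rfl]
            linarith
          · rw [if_neg hl, hlow l hl, sub_zero]
        rw [Finset.sum_congr rfl e, Finset.sum_sub_distrib, Finset.sum_const, A.2,
          Finset.sum_ite_eq', nsmul_eq_mul]
      obtain ⟨A, hA, -⟩ := exists_set (n := n) (m := m) {j} ∅ (by simp) (by simp; omega)
        (by simp; omega)
      obtain ⟨B, -, hB⟩ := exists_set (n := n) (m := m) ∅ {j} (by simp) (by simp)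
        (by simp; omega)
      have hjA : j ∈ A.1 := hA (Finset.mem_singleton_self j)
      have hjB : j ∉ B.1 := fun h => Finset.disjoint_left.mp hB h (Finset.mem_singleton_self j)
      have h1 := hval A
      have h2 := hval B
      rw [if_pos hjA] at h1
      rw [if_neg hjB] at h2
      have h0 : (m : ℝ) * c i = 1 := by
        rcases h01 A with h3 | h3 <;> rcases h01 B with h4 | h4 <;> linarith
      intro C
      rw [hval C, h0]
      split_ifs <;> ring
    · exfalso
      push Not at hhigh hlow
      obtain ⟨k, hki, hk⟩ := hhigh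
      obtain ⟨l, hlj, hl⟩ := hlow
      have hk' : c k = c i := (htwo k).resolve_right hk
      have hl' : c l = c j := (htwo l).resolve_left hl
      have hkj : k ≠ j := by
        rintro rfl
        exact hk rfl
      have hli : l ≠ i := by
        rintro rfl
        exact hl rfl
      have hkl : k ≠ l := by
        rintro rfl
        linarith
      -- a set `C` of size `m - 2` avoiding `i, j, k, l`
      obtain ⟨A, hA1, hA2⟩ := exists_set (n := n) (m := m) {i, k} {j, l} (by
        rw [Finset.disjoint_left]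
        intro x hx hy
        simp only [Finset.mem_insert, Finset.mem_singleton] at hx hy
        rcases hx with hx | hx <;> rcases hy with hy | hy
        · exact hij (hx.symm.trans hy)
        · exact hli (hy.symm.trans hx)
        · exact hkj (hx.symm.trans hy)
        · exact hkl (hx.symm.trans hy))
        (by rw [Finset.card_pair (Ne.symm hki)]; exact hm)
        (by rw [Finset.card_pair (Ne.symm hlj)]; exact hn)
      have hiA : i ∈ A.1 := hA1 (by simp)
      have hkA : k ∈ A.1 := hA1 (by simp)
      have hjA : j ∉ A.1 := fun h => Finset.disjoint_left.mp hA2 h (by simp)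
      have hlA : l ∉ A.1 := fun h => Finset.disjoint_left.mp hA2 h (by simp)
      set C := (A.1.erase i).erase k with hC
      have hkA' : k ∈ A.1.erase i := Finset.mem_erase.mpr ⟨hki, hkA⟩
      have hjC : j ∉ C := fun h => hjA (Finset.mem_of_mem_erase (Finset.mem_of_mem_erase h))
      have hlC : l ∉ C := fun h => hlA (Finset.mem_of_mem_erase (Finset.mem_of_mem_erase h))
      have hlC' : l ∉ insert j C := by
        rw [Finset.mem_insert, not_or]
        exact ⟨hlj, hlC⟩
      have hcard : (insert l (insert j C)).card = m := by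
        rw [Finset.card_insert_of_notMem hlC', Finset.card_insert_of_notMem hjC, hC,
          Finset.card_erase_of_mem hkA', Finset.card_erase_of_mem hiA, A.2]
        omega
      let B : JV n m := ⟨insert l (insert j C), hcard⟩
      have h1 : g A = c i + (c k + ∑ x ∈ C, c x) := by
        rw [hg, ← Finset.add_sum_erase _ _ hiA, ← Finset.add_sum_erase _ _ hkA']
      have h2 : g B = c l + (c j + ∑ x ∈ C, c x) := by
        rw [hg, Finset.sum_insert hlC', Finset.sum_insert hjC]
      have h3 : g A - g B = 2 := by rw [h1, h2, hk', hl']; linarith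
      rcases h01 A with h4 | h4 <;> rcases h01 B with h5 | h5 <;> rw [h4, h5] at h3 <;>
        norm_num at h3

end H87.JA
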