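import Pool.Agent.H87.JA.Lower

/-! The lower bound `n ≤ N(J(n, m))`, `2 ≤ m ≤ n - 2`: end of the proof. -/

namespace H87.JA

open Finset

variable {n m : ℕ}

/-- the coordinate `k` tells whether `l ∈ A` -/
def Tells {t : ℕ} (f : JV n m → (Fin t → Option Bool)) (l : Fin n) (k : Fin t) : Prop :=
  ∃ s : Bool, ∀ A : JV n m, (f A k = some s ↔ l ∈ A.1) ∧ (f A k = some (!s) ↔ l ∉ A.1)

theorem ind_eq_one {t : ℕ} (f : JV n m → (Fin t → Option Bool)) (s : Bool) (k : Fin t)
    (A : JV n m) : ind f s k A = 1 ↔ f A k = some s := by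
  unfold ind
  split_ifs with h
  · simp [h]
  · simp [h]

theorem ind_eq_zero {t : ℕ} (f : JV n m → (Fin t → Option Bool)) (s : Bool) (k : Fin t)
    (A : JV n m) : ind f s k A = 0 ↔ f A k ≠ some s := by
  unfold ind
  split_ifs with h
  · simp [h]
  · simp [h]

theorem ind_01 {t : ℕ} (f : JV n m → (Fin t → Option Bool)) (s : Bool) (k : Fin t)
    (A : JV n m) : ind f s k A = 0 ∨ ind f s k A = 1 := by
  unfold ind
  split_ifs
  · exact Or.inr rfl
  · exact Or.inl rfl

theorem indicator {t : ℕ} (f : JV n m → (Fin t → Option Bool))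
    (hf : ∀ A B, sep (f A) (f B) = (A.1 \ B.1).card) (hm : 2 ≤ m) (hn : m + 2 ≤ n)
    (ht : t < n) (s : Bool) (k : Fin t) (A B : JV n m) (hA : f A k = some s)
    (hB : f B k ≠ some s) :
    ∃ l, (∀ C : JV n m, f C k = some s ↔ l ∈ C.1) ∨ (∀ C : JV n m, f C k = some s ↔ l ∉ C.1) := by
  obtain ⟨c, hc⟩ := degree_one f hf (by omega) (by omega) ht s k
  have hne : ∃ i j, c i ≠ c j := by
    by_contra hcon
    push Not at hcon
    have hn0 : 0 < n := by omega
    have e : ∀ C : JV n m, ind f s k C = m * c ⟨0, hn0⟩ := by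
      intro C
      rw [hc, Finset.sum_congr rfl (fun i _ => hcon i ⟨0, hn0⟩), Finset.sum_const, C.2,
        nsmul_eq_mul]
    have h1 := (ind_eq_one f s k A).mpr hA
    have h2 := (ind_eq_zero f s k B).mpr hB
    rw [e] at h1 h2
    rw [h1] at h2
    exact one_ne_zero h2
  obtain ⟨l, hl⟩ := dictator hm hn (ind f s k) (ind_01 f s k) c hc hne
  refine ⟨l, ?_⟩
  rcases hl with hl | hl
  · left
    intro C
    rw [← ind_eq_one, hl C]
    split_ifs with h
    · simp [h]
    · simp [h]
  · right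
    intro C
    rw [← ind_eq_one, hl C]
    split_ifs with h
    · simp [h]
    · simp [h]

theorem tells_of_sep {t : ℕ} (f : JV n m → (Fin t → Option Bool))
    (hf : ∀ A B, sep (f A) (f B) = (A.1 \ B.1).card) (hm : 2 ≤ m) (hn : m + 2 ≤ n)
    (ht : t < n) (k : Fin t) (A B : JV n m)
    (h : f A k ≠ none ∧ f B k ≠ none ∧ f A k ≠ f B k) : ∃ l, Tells f l k := by
  classical
  obtain ⟨h1, h2, h3⟩ := h
  obtain ⟨s, hs⟩ := Option.ne_none_iff_exists'.mp h1
  obtain ⟨s', hs'⟩ := Option.ne_none_iff_exists'.mp h2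
  have hss : s' = !s := by
    rw [hs, hs'] at h3
    have : s ≠ s' := fun h => h3 (congrArg some h)
    cases s <;> cases s' <;> simp_all
  subst hss
  have hne : (some (!s) : Option Bool) ≠ some s := by cases s <;> simp
  obtain ⟨l, hl⟩ := indicator f hf hm hn ht s k A B hs (by rw [hs']; exact hne)
  obtain ⟨l', hl'⟩ := indicator f hf hm hn ht (!s) k B A hs' (by rw [hs]; exact hne.symm)
  have hdis : ∀ C : JV n m, f C k = some s → f C k = some (!s) → False := by
    intro C h1 h2
    rw [h1] at h2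
    exact hne h2.symm
  -- sets with prescribed behaviour at `l`, `l'`
  have hin : ∀ a b : Fin n, ∃ C : JV n m, a ∈ C.1 ∧ b ∈ C.1 := by
    intro a b
    obtain ⟨C, hC, -⟩ := exists_set (n := n) (m := m) {a, b} ∅ (by simp)
      (by
        have := Finset.card_le_two (a := a) (b := b)
        omega) (by simp; omega)
    exact ⟨C, hC (by simp), hC (by simp)⟩
  have hout : ∀ a b : Fin n, ∃ C : JV n m, a ∉ C.1 ∧ b ∉ C.1 := by
    intro a b
    obtain ⟨C, -, hC⟩ := exists_set (n := n) (m := m) ∅ {a, b} (by simp) (by simp)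
      (by
        have := Finset.card_le_two (a := a) (b := b)
        omega)
    exact ⟨C, fun h => Finset.disjoint_left.mp hC h (by simp),
      fun h => Finset.disjoint_left.mp hC h (by simp)⟩
  have hmix : ∀ a b : Fin n, a ≠ b → ∃ C : JV n m, a ∈ C.1 ∧ b ∉ C.1 := by
    intro a b hab
    obtain ⟨C, hC1, hC2⟩ := exists_set (n := n) (m := m) {a} {b} (by simp [hab])
      (by simp; omega) (by simp; omega)
    exact ⟨C, hC1 (by simp), fun h => Finset.disjoint_left.mp hC2 h (by simp)⟩
  rcases hl with hl | hl <;> rcases hl' with hl' | hl'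
  · exfalso
    obtain ⟨C, hC1, hC2⟩ := hin l l'
    exact hdis C ((hl C).mpr hC1) ((hl' C).mpr hC2)
  · have hll : l = l' := by
      by_contra hcon
      obtain ⟨C, hC1, hC2⟩ := hmix l l' hcon
      exact hdis C ((hl C).mpr hC1) ((hl' C).mpr hC2)
    subst hll
    exact ⟨l, s, fun C => ⟨hl C, hl' C⟩⟩
  · have hll : l' = l := by
      by_contra hcon
      obtain ⟨C, hC1, hC2⟩ := hmix l' l hcon
      exact hdis C ((hl C).mpr hC2) ((hl' C).mpr hC1)
    subst hll
    refine ⟨l', !s, fun C => ⟨hl' C, ?_⟩⟩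
    rw [Bool.not_not]
    exact hl C
  · exfalso
    obtain ⟨C, hC1, hC2⟩ := hout l l'
    exact hdis C ((hl C).mpr hC1) ((hl' C).mpr hC2)

theorem not_both {t : ℕ} (f : JV n m → (Fin t → Option Bool)) (hm : 2 ≤ m) (hn : m + 2 ≤ n)
    (i j : Fin n) (hij : i ≠ j) (k : Fin t) (h1 : Tells f i k) (h2 : Tells f j k) : False := by
  classical
  obtain ⟨s, hs⟩ := h1
  obtain ⟨r, hr⟩ := h2
  obtain ⟨C, hC, -⟩ := exists_set (n := n) (m := m) {i, j} ∅ (by simp)
    (by
      have := Finset.card_le_two (a := i) (b := j)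
      omega) (by simp; omega)
  obtain ⟨B, hB1, hB2⟩ := exists_set (n := n) (m := m) {i} {j} (by simp [hij])
    (by simp; omega) (by simp; omega)
  have hiC : i ∈ C.1 := hC (by simp)
  have hjC : j ∈ C.1 := hC (by simp)
  have hiB : i ∈ B.1 := hB1 (by simp)
  have hjB : j ∉ B.1 := fun h => Finset.disjoint_left.mp hB2 h (by simp)
  have e1 := (hs C).1.mpr hiC
  have e2 := (hr C).1.mpr hjC
  rw [e1] at e2
  have hsr : s = r := Option.some.inj e2
  subst hsr
  have e3 := (hs B).1.mpr hiB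
  exact hjB ((hr B).1.mp e3)

theorem count {t : ℕ} (f : JV n m → (Fin t → Option Bool))
    (hf : ∀ A B, sep (f A) (f B) = (A.1 \ B.1).card) (hm : 2 ≤ m) (hn : m + 2 ≤ n)
    (ht : t < n) (W : Fin n → Finset (Fin t)) (hW : ∀ l k, k ∈ W l ↔ Tells f l k)
    (i j : Fin n) (hij : i ≠ j) : (W i).card + (W j).card = 1 := by
  classical
  obtain ⟨C, A, B, hi, hj, hA, hB⟩ := exists_pair (m := m) i j hij (by omega) (by omega)
  have hiA : i ∈ A.1 := by rw [hA]; exact Finset.mem_insert_self _ _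
  have hjB : j ∈ B.1 := by rw [hB]; exact Finset.mem_insert_self _ _
  have hiB : i ∉ B.1 := by
    rw [hB, Finset.mem_insert, not_or]
    exact ⟨hij, hi⟩
  have hjA : j ∉ A.1 := by
    rw [hA, Finset.mem_insert, not_or]
    exact ⟨hij.symm, hj⟩
  have h1 : (A.1 \ B.1).card = 1 := by
    rw [Finset.card_eq_one]
    refine ⟨i, ?_⟩
    ext x
    rw [Finset.mem_sdiff, hA, hB, Finset.mem_insert, Finset.mem_insert, Finset.mem_singleton]
    constructor
    · rintro ⟨h2, h3⟩
      rcases h2 with h2 | h2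
      · exact h2
      · exact absurd (Or.inr h2) h3
    · intro h2
      subst h2
      exact ⟨Or.inl rfl, by rw [not_or]; exact ⟨hij, hi⟩⟩
  have h2 : Disjoint (W i) (W j) := by
    rw [Finset.disjoint_left]
    intro k hk1 hk2
    exact not_both f hm hn i j hij k ((hW i k).mp hk1) ((hW j k).mp hk2)
  rw [← Finset.card_union_of_disjoint h2, ← h1, ← hf A B]
  unfold sep
  congr 1
  ext k
  rw [Finset.mem_union, hW, hW, Finset.mem_filter]
  constructor
  · rintro (⟨s, hs⟩ | ⟨s, hs⟩)
    · have e1 := (hs A).1.mpr hiA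
      have e2 := (hs B).2.mpr hiB
      refine ⟨Finset.mem_univ _, ?_, ?_, ?_⟩
      · rw [e1]; simp
      · rw [e2]; simp
      · rw [e1, e2]; cases s <;> simp
    · have e1 := (hs B).1.mpr hjB
      have e2 := (hs A).2.mpr hjA
      refine ⟨Finset.mem_univ _, ?_, ?_, ?_⟩
      · rw [e2]; simp
      · rw [e1]; simp
      · rw [e1, e2]; cases s <;> simp
  · rintro ⟨-, hk⟩
    obtain ⟨l, hl⟩ := tells_of_sep f hf hm hn ht k A B hk
    obtain ⟨s, hs⟩ := hl
    by_cases hli : l = i
    · subst hli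
      exact Or.inl ⟨s, hs⟩
    · by_cases hlj : l = j
      · subst hlj
        exact Or.inr ⟨s, hs⟩
      · exfalso
        have e : l ∈ A.1 ↔ l ∈ B.1 := by
          rw [hA, hB, Finset.mem_insert, Finset.mem_insert]
          tauto
        by_cases hlA : l ∈ A.1
        · have e1 := (hs A).1.mpr hlA
          have e2 := (hs B).1.mpr (e.mp hlA)
          exact hk.2.2 (e1.trans e2.symm)
        · have e1 := (hs A).2.mpr hlA
          have e2 := (hs B).2.mpr (fun h => hlA (e.mpr h))
          exact hk.2.2 (e1.trans e2.symm)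

theorem lower (hm : 2 ≤ m) (hn : m + 2 ≤ n) (t : ℕ) (h : HasAddressing (johnson n m) t) :
    n ≤ t := by
  classical
  by_contra hcon
  obtain ⟨f, hf⟩ := h
  have hf' : ∀ A B, sep (f A) (f B) = (A.1 \ B.1).card := by
    intro A B
    rw [hf, johnson_dist]
  let W : Fin n → Finset (Fin t) := fun l => Finset.univ.filter fun k => Tells f l k
  have hW : ∀ l k, k ∈ W l ↔ Tells f l k := by
    intro l k
    simp [W]
  have h0 : 0 < n := by omega
  have h1 : 1 < n := by omega
  have h2 : 2 < n := by omega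
  have c01 := count f hf' hm hn (by omega) W hW ⟨0, h0⟩ ⟨1, h1⟩ (by
    intro h; have := congrArg Fin.val h; simp at this)
  have c02 := count f hf' hm hn (by omega) W hW ⟨0, h0⟩ ⟨2, h2⟩ (by
    intro h; have := congrArg Fin.val h; simp at this)
  have c12 := count f hf' hm hn (by omega) W hW ⟨1, h1⟩ ⟨2, h2⟩ (by
    intro h; have := congrArg Fin.val h; simp at this)
  omega

end H87.JA
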