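import Pool.Agent.H87.JA.Dist

/-! The addressing of length `2 n - 3` of the Johnson graph `J(n, m)`. -/

namespace H87.JA

variable {n m : ℕ}

/-- the elements of `A` below `i` -/
def below (A : Finset (Fin n)) (i : Fin n) : Finset (Fin n) := A.filter (· < i)

/-- the word of `A`: the coordinate `(i, ε)` is used if `ε` is the parity of the number of the
elements of `A` below `i`, and then it tells whether `i ∈ A` -/
def word (A : Finset (Fin n)) : Fin n × Bool → Option Bool := fun x =>
  if decide (Odd (below A x.1).card) = x.2 then some (decide (x.1 ∈ A)) else none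

theorem sep_iff (A B : Finset (Fin n)) (x : Fin n × Bool) :
    (word A x ≠ none ∧ word B x ≠ none ∧ word A x ≠ word B x) ↔
      decide (Odd (below A x.1).card) = x.2 ∧ decide (Odd (below B x.1).card) = x.2 ∧
        ¬ (x.1 ∈ A ↔ x.1 ∈ B) := by
  unfold word
  by_cases h1 : decide (Odd (below A x.1).card) = x.2
  · by_cases h2 : decide (Odd (below B x.1).card) = x.2
    · rw [if_pos h1, if_pos h2]
      simp [h1, h2]
    · rw [if_pos h1, if_neg h2]
      simp [h2]
  · rw [if_neg h1]
    simp [h1]

theorem count_even (S : Finset (Fin n)) :
    (S.filter fun i => Even (below S i).card).card = (S.card + 1) / 2 := by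
  induction S using Finset.induction_on_max with
  | empty => simp
  | insert a s has ih =>
    have hnot : a ∉ s := fun h => lt_irrefl a (has a h)
    have hb : ∀ i ∈ s, below (insert a s) i = below s i := by
      intro i hi
      unfold below
      rw [Finset.filter_insert, if_neg (not_lt.mpr (has i hi).le)]
    have hba : below (insert a s) a = s := by
      unfold below
      rw [Finset.filter_insert, if_neg (lt_irrefl a), Finset.filter_true_of_mem has]
    rw [Finset.filter_insert, hba]
    have e : (s.filter fun i => Even (below (insert a s) i).card) =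
        s.filter fun i => Even (below s i).card := by
      apply Finset.filter_congr
      intro i hi
      rw [hb i hi]
    rw [e, Finset.card_insert_of_notMem hnot]
    by_cases hev : Even s.card
    · rw [if_pos hev, Finset.card_insert_of_notMem
        (fun h => hnot (Finset.mem_of_mem_filter a h)), ih]
      obtain ⟨r, hr⟩ := hev
      omega
    · rw [if_neg hev, ih]
      rw [Nat.not_even_iff_odd] at hev
      obtain ⟨r, hr⟩ := hev
      omega

theorem symmDiff_below (A B : Finset (Fin n)) (i : Fin n) :
    below (symmDiff A B) i = symmDiff (below A i) (below B i) := by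
  ext x
  simp only [below, Finset.mem_filter, Finset.mem_symmDiff]
  tauto

theorem card_symmDiff (A B : Finset (Fin n)) :
    (symmDiff A B).card + 2 * (A ∩ B).card = A.card + B.card := by
  have h1 : symmDiff A B = (A \ B) ∪ (B \ A) := rfl
  have h2 : Disjoint (A \ B) (B \ A) := by
    rw [Finset.disjoint_left]
    intro x hx hy
    rw [Finset.mem_sdiff] at hx hy
    exact hy.2 hx.1
  rw [h1, Finset.card_union_of_disjoint h2]
  have h3 := Finset.card_sdiff_add_card_inter A B
  have h4 := Finset.card_sdiff_add_card_inter B A
  rw [Finset.inter_comm] at h4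
  omega

theorem even_below_iff (A B : Finset (Fin n)) (i : Fin n) :
    Even (below (symmDiff A B) i).card ↔
      (decide (Odd (below A i).card) = decide (Odd (below B i).card)) := by
  rw [symmDiff_below, decide_eq_decide]
  have h := card_symmDiff (below A i) (below B i)
  rw [← Nat.not_even_iff_odd, ← Nat.not_even_iff_odd, not_iff_not, ← Nat.even_add, ← h,
    Nat.even_add]
  simp

theorem sep_word (A B : JV n m) : sep (word A.1) (word B.1) = (A.1 \ B.1).card := by
  classical
  have h1 : sep (word A.1) (word B.1) =
      ((symmDiff A.1 B.1).filter fun i => Even (below (symmDiff A.1 B.1) i).card).card := by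
    unfold sep
    rw [← Finset.card_map (⟨fun i => (i, decide (Odd (below A.1 i).card)),
      fun a b hab => congrArg Prod.fst hab⟩ : Fin n ↪ Fin n × Bool)]
    congr 1
    ext x
    rw [Finset.mem_filter, sep_iff, Finset.mem_map]
    constructor
    · rintro ⟨-, h1, h2, h3⟩
      refine ⟨x.1, ?_, ?_⟩
      · rw [Finset.mem_filter, even_below_iff, h1, h2]
        refine ⟨?_, rfl⟩
        rw [Finset.mem_symmDiff]
        tauto
      · exact Prod.ext rfl h1
    · rintro ⟨i, hi, rfl⟩
      rw [Finset.mem_filter, even_below_iff, Finset.mem_symmDiff] at hi
      refine ⟨Finset.mem_univ _, rfl, hi.2.symm, ?_⟩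
      change ¬ (i ∈ A.1 ↔ i ∈ B.1)
      tauto
  rw [h1, count_even]
  have h2 := card_symmDiff A.1 B.1
  have h3 := Finset.card_sdiff_add_card_inter A.1 B.1
  have hA := A.2
  have hB := B.2
  omega

theorem upper (hn : 2 ≤ n) : HasAddressing (johnson n m) (2 * n - 3) := by
  classical
  have h0 : 0 < n := by omega
  have h1 : n - 1 < n := by omega
  let z : Fin n := ⟨0, h0⟩
  let w : Fin n := ⟨n - 1, h1⟩
  have hzw : z ≠ w := by
    intro h
    have := congrArg Fin.val h
    simp only [z, w] at this
    omega
  let bad : Finset (Fin n × Bool) := {(z, true), (w, true), (w, false)}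
  have hbad : bad.card = 3 := by
    have e1 : (w, true) ∉ ({(w, false)} : Finset (Fin n × Bool)) := by simp
    have e2 : (z, true) ∉ ({(w, true), (w, false)} : Finset (Fin n × Bool)) := by
      simp [hzw]
    simp only [bad]
    rw [Finset.card_insert_of_notMem e2, Finset.card_insert_of_notMem e1,
      Finset.card_singleton]
  refine addressing_of (johnson n m) (2 * n - 3) (fun A : JV n m => word A.1) badᶜ ?_ ?_ ?_
  · rw [Finset.card_compl, hbad, Fintype.card_prod, Fintype.card_fin, Fintype.card_bool]
    omega
  · intro A B x hx
    rw [Finset.mem_compl, not_not] at hx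
    simp only [bad, Finset.mem_insert, Finset.mem_singleton] at hx
    rw [sep_iff]
    rintro ⟨e1, e2, e3⟩
    have hw : ∀ b : Bool, x = (w, b) → False := by
      intro b hb
      subst hb
      change decide (Odd (below A.1 w).card) = b at e1
      change decide (Odd (below B.1 w).card) = b at e2
      change ¬ (w ∈ A.1 ↔ w ∈ B.1) at e3
      rw [← e2, decide_eq_decide] at e1
      have hbe : ∀ C : JV n m, (below C.1 w).card = m - (if w ∈ C.1 then 1 else 0) := by
        intro C
        have e : below C.1 w = C.1.erase w := by
          ext y
          simp only [below, Finset.mem_filter, Finset.mem_erase]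
          constructor
          · rintro ⟨a1, a2⟩
            exact ⟨a2.ne, a1⟩
          · rintro ⟨a1, a2⟩
            refine ⟨a2, lt_of_le_of_ne ?_ a1⟩
            rw [Fin.le_def]
            have := y.2
            simp only [w]
            omega
        rw [e]
        by_cases hC : w ∈ C.1
        · rw [if_pos hC, Finset.card_erase_of_mem hC, C.2]
        · rw [if_neg hC, Finset.erase_eq_of_notMem hC, C.2]
          rfl
      rw [hbe A, hbe B] at e1
      have hpos : ∀ C : JV n m, w ∈ C.1 → 1 ≤ m := by
        intro C hC
        have := Finset.card_pos.mpr ⟨w, hC⟩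
        rw [C.2] at this
        exact this
      by_cases hA : w ∈ A.1
      · have hB : w ∉ B.1 := fun h => e3 ⟨fun _ => h, fun _ => hA⟩
        rw [if_pos hA, if_neg hB] at e1
        have hm := hpos A hA
        rw [Nat.odd_iff, Nat.odd_iff] at e1
        omega
      · have hB : w ∈ B.1 := by
          by_contra h
          exact e3 ⟨fun h' => absurd h' hA, fun h' => absurd h' h⟩
        rw [if_neg hA, if_pos hB] at e1
        have hm := hpos B hB
        rw [Nat.odd_iff, Nat.odd_iff] at e1
        omega
    rcases hx with hx | hx | hx
    · subst hx
      change decide (Odd (below A.1 z).card) = true at e1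
      have : below A.1 z = ∅ := by
        unfold below
        rw [Finset.filter_eq_empty_iff]
        intro y _ hy
        rw [Fin.lt_def] at hy
        simp only [z] at hy
        omega
      rw [this] at e1
      simp at e1
    · exact hw true hx
    · exact hw false hx
  · intro A B
    rw [sep_word, johnson_dist]

end H87.JA
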